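import Mathlib
import Pool.Agent.Lib_helper79.Gap.Basic

/-! MP_f6626d_co, module B1: evaluating the exact polynomial solution gives the truncated
arrays. -/

set_option autoImplicit false

open Finset Filter Topology

namespace Pool.Agent.Gap

/-- the exact solution at half length `n` is supported on the gaps `≤ C0 + R n` -/
lemma IsSol.supp {G : GapKernel} {C0 : ℕ} {s : ℕ → ℤ → ℝ} (hs : IsCap C0 s)
    {B : ℕ → ℤ → Polynomial ℝ} (hB : IsSol G s B) :
    ∀ (n : ℕ) (g : ℤ), (C0 : ℤ) + G.R * n < g → B n g = 0 := by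
  intro n
  induction n using Nat.strong_induction_on with
  | _ n ih =>
    intro g hg
    have hRn : (0 : ℤ) ≤ G.R * n := by positivity
    have hg1 : 1 ≤ g := by
      have : (0 : ℤ) ≤ C0 := by positivity
      omega
    rw [hB.step n g hg1, hs.supp_g n g (Or.inr (by omega)), map_zero, zero_add]
    refine Finset.sum_eq_zero fun i hi => ?_
    split_ifs with h
    · refine Finset.sum_eq_zero fun g' hg' => ?_
      have hi1 := (G.pos_mem i hi).1
      rw [Finset.mem_Icc] at hg'
      have hle : (G.R : ℤ) * ((n - i.1 : ℕ) : ℤ) + G.R ≤ G.R * n := by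
        have h1 : (n - i.1) + 1 ≤ n := by omega
        have h2 : G.R * ((n - i.1) + 1) ≤ G.R * n := Nat.mul_le_mul_left _ h1
        have h3 : ((G.R * ((n - i.1) + 1) : ℕ) : ℤ) ≤ ((G.R * n : ℕ) : ℤ) := by exact_mod_cast h2
        push_cast at h3 ⊢
        linarith
      rw [ih (n - i.1) (by omega) g' (by omega), mul_zero]
    · rfl

lemma exp_pow_toNat (eps : ℝ) (i : ℕ × ℕ) (g g' : ℤ) (h1 : 1 ≤ g) (h2 : 1 ≤ g') :
    (Real.exp (-eps)) ^ ((i.2 : ℤ) * (g + g')).toNat = GapKernel.wt eps i g g' := by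
  have h0 : (0 : ℤ) ≤ (i.2 : ℤ) * (g + g') := by
    have : (0 : ℤ) ≤ g + g' := by omega
    positivity
  have h3 : ((((i.2 : ℤ) * (g + g')).toNat : ℕ) : ℝ) = (i.2 : ℝ) * ((g : ℝ) + (g' : ℝ)) := by
    have h4 : ((((i.2 : ℤ) * (g + g')).toNat : ℕ) : ℤ) = (i.2 : ℤ) * (g + g') :=
      Int.toNat_of_nonneg h0
    have h5 : (((((i.2 : ℤ) * (g + g')).toNat : ℕ) : ℤ) : ℝ) = (((i.2 : ℤ) * (g + g') : ℤ) : ℝ) := by
      rw [h4]
    push_cast at h5
    exact_mod_cast h5
  rw [← Real.exp_nat_mul, h3]
  unfold GapKernel.wt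
  congr 1
  ring

theorem B1 : B1_Stmt := by
  intro G C0 s hs B hB N eps b _ hb n
  induction n using Nat.strong_induction_on with
  | _ n ih =>
    intro hn g
    have hNn : (C0 : ℤ) + ((G.R : ℤ) + 1) * ((n : ℤ) + 1) ≤ N := by exact_mod_cast hn
    by_cases hg : g < 1
    · rw [hb.zero n g (Or.inl hg), hB.zero n g hg, Polynomial.eval_zero]
    by_cases hgN : (N : ℤ) < g
    · rw [hb.zero n g (Or.inr hgN), hB.supp hs n g ?_, Polynomial.eval_zero]
      have : (0 : ℤ) ≤ (G.R : ℤ) := by positivity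
      have : (0 : ℤ) ≤ (n : ℤ) := by positivity
      nlinarith
    have hg1 : 1 ≤ g := by omega
    rw [hb.step n g hg1 (by omega), hB.step n g hg1, Polynomial.eval_add, Polynomial.eval_C,
      Polynomial.eval_finsetSum]
    congr 1
    refine Finset.sum_congr rfl fun i hi => ?_
    have hi1 := (G.pos_mem i hi).1
    split_ifs with h
    · rw [Polynomial.eval_finsetSum]
      have hlt : n - i.1 < n := by omega
      have hN' : C0 + (G.R + 1) * ((n - i.1) + 1) ≤ N := by
        refine le_trans ?_ hn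
        have : (n - i.1) + 1 ≤ n + 1 := by omega
        have := Nat.mul_le_mul_left (G.R + 1) this
        omega
      set q := Real.exp (-eps) with hq
      -- the summand
      have key : ∀ g' : ℤ, g' ∈ Icc (1 : ℤ) N →
          G.K i g g' * GapKernel.wt eps i g g' * b (n - i.1) g'
            = (Polynomial.C (G.K i g g') * Polynomial.X ^ ((i.2 : ℤ) * (g + g')).toNat
                * B (n - i.1) g').eval q := by
        intro g' hg'
        rw [Finset.mem_Icc] at hg'
        rw [ih (n - i.1) hlt hN' g', Polynomial.eval_mul, Polynomial.eval_mul, Polynomial.eval_C,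
          Polynomial.eval_pow, Polynomial.eval_X, hq, exp_pow_toNat eps i g g' hg1 hg'.1]
      rw [Finset.sum_congr rfl key]
      set F : ℤ → ℝ := fun g' => (Polynomial.C (G.K i g g') *
        Polynomial.X ^ ((i.2 : ℤ) * (g + g')).toNat * B (n - i.1) g').eval q with hF
      have e1 : ∑ g' ∈ Icc (1 : ℤ) N, F g' = ∑ g' ∈ Icc (1 : ℤ) N ∩ Icc (g - G.R) (g + G.R), F g' := by
        symm
        refine Finset.sum_subset Finset.inter_subset_left fun g' h1 h2 => ?_
        have h3 : g' ∉ Icc (g - (G.R : ℤ)) (g + G.R) := fun h4 => h2 (Finset.mem_inter.mpr ⟨h1, h4⟩)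
        have h5 : G.K i g g' = 0 := by
          refine G.K_range i g g' ?_
          rw [Finset.mem_Icc] at h3
          rw [lt_abs]
          omega
        simp [hF, h5]
      have e2 : ∑ g' ∈ Icc (g - (G.R : ℤ)) (g + G.R), F g'
          = ∑ g' ∈ Icc (1 : ℤ) N ∩ Icc (g - G.R) (g + G.R), F g' := by
        symm
        refine Finset.sum_subset Finset.inter_subset_right fun g' h1 h2 => ?_
        have h3 : g' ∉ Icc (1 : ℤ) N := fun h4 => h2 (Finset.mem_inter.mpr ⟨h4, h1⟩)
        rw [Finset.mem_Icc] at h3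
        by_cases h6 : g' ≤ 0
        · have h5 : G.K i g g' = 0 := G.K_out' i g g' h6
          simp [hF, h5]
        · have h5 : B (n - i.1) g' = 0 := by
            refine hB.supp hs (n - i.1) g' ?_
            have h7 : (N : ℤ) < g' := by omega
            have h8 : (C0 : ℤ) + ((G.R : ℤ) + 1) * (((n - i.1 : ℕ) : ℤ) + 1) ≤ N := by
              exact_mod_cast hN'
            have : (0 : ℤ) ≤ (G.R : ℤ) := by positivity
            have : (0 : ℤ) ≤ ((n - i.1 : ℕ) : ℤ) := by positivity
            nlinarith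
          simp [hF, h5]
      rw [e1, e2]
    · simp

end Pool.Agent.Gap
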